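import Pool.Agent.Helper67.DF.Stmts

/-!
Project DF: BQ, the dual form of a quadratic form.
-/

set_option autoImplicit false

open Finset MeasureTheory

namespace Pool.Agent.Helper78.DF

open Pool.Agent.Helper67.BT (E PG Sp)
open Pool.Agent.Helper67.DF

/-- the operator `∑ ω_l a_l ⊗ a_l` -/
noncomputable def Top {n k : ℕ} (a : Fin n → E k) (ω : Fin n → ℝ) : E k →ₗ[ℝ] E k :=
  ∑ l, ω l • ((innerₛₗ ℝ (a l)).smulRight (a l))

theorem Top_apply {n k : ℕ} (a : Fin n → E k) (ω : Fin n → ℝ) (y : E k) :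
    Top a ω y = ∑ l, (ω l * inner ℝ (a l) y) • a l := by
  unfold Top
  rw [LinearMap.sum_apply]
  refine Finset.sum_congr rfl fun l _ => ?_
  rw [LinearMap.smul_apply, LinearMap.smulRight_apply, innerₛₗ_apply_apply, smul_smul]

theorem Top_inner {n k : ℕ} (a : Fin n → E k) (ω : Fin n → ℝ) (x y : E k) :
    inner ℝ (Top a ω x) y = ∑ l, ω l * inner ℝ (a l) x * inner ℝ (a l) y := by
  rw [Top_apply, sum_inner]
  refine Finset.sum_congr rfl fun l _ => ?_
  rw [real_inner_smul_left]

theorem right_inv {n k : ℕ} (a : Fin n → E k) (ω : Fin n → ℝ) (X : E k →ₗ[ℝ] E k)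
    (hX : ∀ y, X (∑ l, (ω l * inner ℝ (a l) y) • a l) = y) (y : E k) : Top a ω (X y) = y := by
  have h1 : X.comp (Top a ω) = LinearMap.id := by
    refine LinearMap.ext fun y => ?_
    rw [LinearMap.comp_apply, Top_apply, hX, LinearMap.id_apply]
  have h2 : (Top a ω).comp X = LinearMap.id := (LinearMap.comp_eq_id_comm ℝ (E k)).mp h1
  have h3 := congrArg (fun f : E k →ₗ[ℝ] E k => f y) h2
  exact h3

theorem st_BQ : ST_BQ := by
  intro n k a ω β X hω hX
  set y : E k := ∑ l, β l • a l with hy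
  set x : E k := X y with hx
  have h1 : Top a ω x = y := right_inv a ω X hX y
  have h2 : inner ℝ x y = ∑ l, β l * inner ℝ (a l) x := by
    rw [hy, inner_sum]
    refine Finset.sum_congr rfl fun l _ => ?_
    rw [real_inner_smul_right, real_inner_comm]
  have h3 : inner ℝ x y = ∑ l, ω l * inner ℝ (a l) x * inner ℝ (a l) x := by
    rw [← Top_inner, h1, real_inner_comm]
  have h4 : inner ℝ x y = ∑ l, (2 * (β l * inner ℝ (a l) x) -
      ω l * inner ℝ (a l) x * inner ℝ (a l) x) := by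
    rw [Finset.sum_sub_distrib, ← Finset.mul_sum, ← h2, ← h3]
    ring
  rw [h4]
  refine Finset.sum_le_sum fun l _ => ?_
  have h5 := hω l
  rw [le_div_iff₀ h5]
  nlinarith [sq_nonneg (β l - ω l * inner ℝ (a l) x)]

end Pool.Agent.Helper78.DF
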