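import Pool.Agent.Helper67.DF.Stmts

/-!
Project DF (MP_10bc19_gt): the inequality for all spanning families (INC).
-/

open Finset MeasureTheory

namespace Pool.Agent.Helper78.DF

open Pool.Agent.Helper67.BT (E PG Sp)
open Pool.Agent.Helper67.DF

/-- from isotropic position to all spanning families -/
theorem st_INC (hA : ST_ASM) (hP : ST_PSN) (hC : ST_CHG) (hW : ST_WB) : ST_INC := by
  intro n k a c v ha hc
  obtain ⟨T, a', h1, h2, h3⟩ := hP n k a
    (fun l => Av a (cf (Uc c)) (fun x => Wc c (inner ℝ (a l) x))) ha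
    (fun l => (hW n k a c l _ ha hc rfl).1)
  have key : ∀ F : E k → ℝ, Av a' (cf (Uc c)) (fun x => F (T x)) = Av a (cf (Uc c)) F :=
    fun F => hC n k a a' (cf (Uc c)) T h1 F
  have hp : Pos c (fun l => Av a (cf (Uc c)) (fun x => Wc c (inner ℝ (a l) x))) a' := by
    refine ⟨hc, h2, fun l => ?_, h3⟩
    rw [← key (fun x => Wc c (inner ℝ (a l) x))]
    simp only [h1]
  have h := hA n k a' c (fun l => Av a (cf (Uc c)) (fun x => Wc c (inner ℝ (a l) x))) v hp
  rw [← key (fun x => (∑ l, v l * (inner ℝ (a l) x * Pc c (inner ℝ (a l) x))) ^ 2),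
    ← key (fun x => ∑ l, v l * (inner ℝ (a l) x * Pc c (inner ℝ (a l) x))),
    ← key (fun x => ∑ l, v l ^ 2 * (inner ℝ (a l) x * Pc c (inner ℝ (a l) x) +
      inner ℝ (a l) x ^ 2 * Wc c (inner ℝ (a l) x)))]
  simp only [← h1]
  exact h

end Pool.Agent.Helper78.DF
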