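import Pool.Agent.Helper78.DF.BQ
import Pool.Agent.Helper67.BT.Basic2

/-!
Project DF: LEAF, families with small Hölder constant.
-/

set_option autoImplicit false

open Finset MeasureTheory

namespace Pool.Agent.Helper78.DF

open Pool.Agent.Helper67.BT (E PG Sp PG_const PG_add PG_neg PG_sub PG_mul PG_const_mul PG_pow
  PG_abs PG_sum PG_inner PG_norm)
open Pool.Agent.Helper67.DF

section Jfacts

variable {n k : ℕ} {a : Fin n → E k} {U : Fin n → ℝ → ℝ}

theorem J_add {F G : E k → ℝ} (hF : Integrable fun x => F x * Real.exp (-(VV a U x)))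
    (hG : Integrable fun x => G x * Real.exp (-(VV a U x))) :
    J a U (fun x => F x + G x) = J a U F + J a U G := by
  unfold J
  rw [← integral_add hF hG]
  refine integral_congr_ae (Filter.Eventually.of_forall fun x => ?_)
  show (F x + G x) * _ = _
  ring

theorem J_sub {F G : E k → ℝ} (hF : Integrable fun x => F x * Real.exp (-(VV a U x)))
    (hG : Integrable fun x => G x * Real.exp (-(VV a U x))) :
    J a U (fun x => F x - G x) = J a U F - J a U G := by
  unfold J
  rw [← integral_sub hF hG]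
  refine integral_congr_ae (Filter.Eventually.of_forall fun x => ?_)
  show (F x - G x) * _ = _
  ring

theorem J_cmul (c : ℝ) (F : E k → ℝ) : J a U (fun x => c * F x) = c * J a U F := by
  unfold J
  rw [← integral_const_mul]
  refine integral_congr_ae (Filter.Eventually.of_forall fun x => ?_)
  show (c * F x) * _ = _
  ring

theorem J_const (c : ℝ) : J a U (fun _ => c) = c * J a U fun _ => 1 := by
  rw [← J_cmul]
  simp only [mul_one]

theorem J_mono {F G : E k → ℝ} (hF : Integrable fun x => F x * Real.exp (-(VV a U x)))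
    (hG : Integrable fun x => G x * Real.exp (-(VV a U x))) (h : ∀ x, F x ≤ G x) :
    J a U F ≤ J a U G := by
  unfold J
  exact integral_mono hF hG fun x => mul_le_mul_of_nonneg_right (h x) (Real.exp_pos _).le

theorem J_sum {ι : Type} (s : Finset ι) {F : ι → E k → ℝ}
    (hF : ∀ i ∈ s, Integrable fun x => F i x * Real.exp (-(VV a U x))) :
    J a U (fun x => ∑ i ∈ s, F i x) = ∑ i ∈ s, J a U (F i) := by
  unfold J
  rw [← integral_finsetSum s hF]
  refine integral_congr_ae (Filter.Eventually.of_forall fun x => ?_)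
  show (∑ i ∈ s, F i x) * _ = _
  rw [Finset.sum_mul]

theorem J_abs_le {F G : E k → ℝ} (hF : Integrable fun x => F x * Real.exp (-(VV a U x)))
    (hG : Integrable fun x => G x * Real.exp (-(VV a U x))) (h : ∀ x, |F x| ≤ G x) :
    |J a U F| ≤ J a U G := by
  rw [abs_le]
  constructor
  · have h1 : J a U (fun x => -1 * G x) ≤ J a U F := by
      refine J_mono ?_ hF fun x => ?_
      · refine (hG.const_mul (-1)).congr (Filter.Eventually.of_forall fun x => ?_)
        show -1 * (G x * _) = _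
        ring
      · have := (abs_le.mp (h x)).1
        linarith
    rw [J_cmul] at h1
    linarith
  · exact J_mono hF hG fun x => (le_abs_self _).trans (h x)

theorem PG_of_le {F G : E k → ℝ} (hF : Continuous F) (hG : PG G) (h : ∀ x, |F x| ≤ G x) :
    PG F := by
  obtain ⟨_, C, N, hC, h2⟩ := hG
  exact ⟨hF, C, N, hC, fun x => (h x).trans ((le_abs_self _).trans (h2 x))⟩

end Jfacts

/-- the inverse of `∑ ω_l a_l ⊗ a_l` -/
theorem exists_X {n k : ℕ} (a : Fin n → E k) (ω : Fin n → ℝ) (ha : Sp a) (hω : ∀ l, 0 < ω l) :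
    ∃ X : E k →ₗ[ℝ] E k, ∀ y, X (∑ l, (ω l * inner ℝ (a l) y) • a l) = y := by
  have hinj : Function.Injective (Top a ω) := by
    rw [injective_iff_map_eq_zero]
    intro y hy
    apply ha
    have h1 : ∑ l, ω l * inner ℝ (a l) y * inner ℝ (a l) y = 0 := by
      rw [← Top_inner, hy, inner_zero_left]
    have h2 := (Finset.sum_eq_zero_iff_of_nonneg (fun l _ => by
      have := hω l
      have h3 : ω l * inner ℝ (a l) y * inner ℝ (a l) y =
        ω l * (inner ℝ (a l) y) ^ 2 := by ring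
      rw [h3]
      positivity)).mp h1
    intro i
    have h4 := h2 i (Finset.mem_univ i)
    have h5 : ω i * (inner ℝ (a i) y * inner ℝ (a i) y) = 0 := by rw [← mul_assoc]; exact h4
    exact mul_self_eq_zero.mp ((mul_eq_zero.mp h5).resolve_left (hω i).ne')
  let e := LinearEquiv.ofInjectiveEndo (Top a ω) hinj
  refine ⟨e.symm.toLinearMap, fun y => ?_⟩
  rw [← Top_apply]
  show e.symm (e y) = y
  exact e.symm_apply_apply y

section Xfacts

variable {n k : ℕ} {a : Fin n → E k} {ω : Fin n → ℝ} {X : E k →ₗ[ℝ] E k}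

theorem X_symm (hX : ∀ y, X (∑ l, (ω l * inner ℝ (a l) y) • a l) = y) (y z : E k) :
    inner ℝ (X y) z = inner ℝ (X z) y := by
  have h1 : inner ℝ (X y) z = inner ℝ (X y) (Top a ω (X z)) := by rw [right_inv a ω X hX]
  have h2 : inner ℝ (X z) y = inner ℝ (X z) (Top a ω (X y)) := by rw [right_inv a ω X hX]
  rw [h1, h2, real_inner_comm, Top_inner, real_inner_comm, Top_inner]
  refine Finset.sum_congr rfl fun l _ => ?_
  ring

theorem X_nonneg (hω : ∀ l, 0 < ω l) (hX : ∀ y, X (∑ l, (ω l * inner ℝ (a l) y) • a l) = y)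
    (y : E k) : 0 ≤ inner ℝ (X y) y := by
  have h1 : inner ℝ (X y) y = inner ℝ (Top a ω (X y)) (X y) := by
    rw [right_inv a ω X hX, real_inner_comm]
  rw [h1, Top_inner]
  refine Finset.sum_nonneg fun l _ => ?_
  have := hω l
  have h3 : ω l * inner ℝ (a l) (X y) * inner ℝ (a l) (X y) =
    ω l * (inner ℝ (a l) (X y)) ^ 2 := by ring
  rw [h3]
  positivity

theorem X_entry (hBQ : ST_BQ) (hω : ∀ l, 0 < ω l)
    (hX : ∀ y, X (∑ l, (ω l * inner ℝ (a l) y) • a l) = y) (j l : Fin n) :
    |inner ℝ (X (a l)) (a j)| ≤ (1 / ω j + 1 / ω l) / 2 := by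
  have hpos := X_nonneg hω hX
  rcases eq_or_ne j l with rfl | hjl
  · have h1 := hBQ n k a ω (fun i => if i = j then 1 else 0) X hω hX
    simp only [ite_smul, one_smul, zero_smul, Finset.sum_ite_eq', Finset.mem_univ, if_true,
      ite_pow, one_pow] at h1
    have h2 : ∑ i, (if i = j then (1 : ℝ) else 0 ^ 2) / ω i = 1 / ω j := by
      rw [Finset.sum_eq_single j]
      · simp
      · intro b _ hb
        simp [hb]
      · intro h
        exact absurd (Finset.mem_univ j) h
    rw [h2] at h1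
    rw [abs_of_nonneg (hpos _)]
    linarith
  · have hb : ∀ t : ℝ, ∑ i, ((if i = j then 1 else 0) + (if i = l then t else 0)) • a i =
        a j + t • a l := by
      intro t
      simp only [add_smul, ite_smul, one_smul, zero_smul, Finset.sum_add_distrib,
        Finset.sum_ite_eq', Finset.mem_univ, if_true]
    have hs : ∀ t : ℝ, t ^ 2 = 1 →
        ∑ i, ((if i = j then 1 else 0) + (if i = l then t else 0)) ^ 2 / ω i =
        1 / ω j + 1 / ω l := by
      intro t ht
      have h3 : ∀ i, ((if i = j then (1 : ℝ) else 0) + (if i = l then t else 0)) ^ 2 / ω i =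
          (if i = j then 1 / ω i else 0) + (if i = l then 1 / ω i else 0) := by
        intro i
        by_cases h1 : i = j
        · have h2 : i ≠ l := fun h => hjl (h1.symm.trans h)
          simp [h1, hjl]
        · by_cases h2 : i = l
          · subst h2
            simp [h1, ht]
          · simp [h1, h2]
      rw [Finset.sum_congr rfl fun i _ => h3 i, Finset.sum_add_distrib]
      simp
    have hq : ∀ t : ℝ, t ^ 2 = 1 → 2 * t * inner ℝ (X (a l)) (a j) ≤ 1 / ω j + 1 / ω l := by
      intro t ht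
      have h1 := hBQ n k a ω (fun i => (if i = j then 1 else 0) + (if i = l then t else 0)) X hω hX
      rw [hb, hs t ht, map_add, map_smul, inner_add_left, inner_add_right, inner_add_right,
        real_inner_smul_left, real_inner_smul_left, real_inner_smul_right,
        real_inner_smul_right, X_symm hX (a j) (a l)] at h1
      have h2 := hpos (a j)
      have h3 := hpos (a l)
      have h4 : t * (t * inner ℝ (X (a l)) (a l)) = inner ℝ (X (a l)) (a l) := by
        rw [← mul_assoc, ← pow_two, ht, one_mul]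
      rw [h4] at h1
      linarith
    have h5 := hq 1 (by norm_num)
    have h6 := hq (-1) (by norm_num)
    rw [abs_le]
    constructor <;> linarith

end Xfacts

theorem rpow_le_sq {t α : ℝ} (ht : 0 ≤ t) (h0 : 0 ≤ α) (h2 : α ≤ 2) : t ^ α ≤ 1 + t ^ 2 := by
  rcases le_total t 1 with h | h
  · have := Real.rpow_le_one ht h h0
    nlinarith [sq_nonneg t]
  · have h1 : t ^ α ≤ t ^ (2 : ℝ) := Real.rpow_le_rpow_of_exponent_le h h2
    have h3 : t ^ (2 : ℝ) = t ^ 2 := by norm_cast
    rw [h3] at h1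
    linarith

theorem st_LEAF : ST_MOM → ST_IBP → ST_BQ → ST_PB → ST_IG → ST_LEAF := by
  intro hMOM hIBP hBQ hPB hIG n k a m φ c L α hSp hc hL hα0 hα1 hGH hFH
  obtain ⟨M1, hM1⟩ := hMOM n k a hSp c 1 hc
  obtain ⟨M2, hM2⟩ := hMOM n k a hSp c 2 hc
  obtain ⟨δ, hδ, hIGd⟩ := hIG n k a hSp c hc
  set A : ℝ := ∑ l, ‖a l‖ with hA
  set Mm : ℝ := ∑ l, ‖m l‖ with hMm
  have hA0 : 0 ≤ A := Finset.sum_nonneg fun l _ => norm_nonneg _
  have hMm0 : 0 ≤ Mm := Finset.sum_nonneg fun l _ => norm_nonneg _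
  have hAl : ∀ l, ‖a l‖ ≤ A := fun l =>
    Finset.single_le_sum (f := fun l => ‖a l‖) (fun l _ => norm_nonneg _) (Finset.mem_univ l)
  have hMl : ∀ l, ‖m l‖ ≤ Mm := fun l =>
    Finset.single_le_sum (f := fun l => ‖m l‖) (fun l _ => norm_nonneg _) (Finset.mem_univ l)
  set A1 : ℝ := 1 + A ^ 2 with hA1
  have hA11 : 1 ≤ A1 := by nlinarith [sq_nonneg A]
  set G : ℝ := 1 + 2 * |M1| + |M2| with hG
  have hG1 : 1 ≤ G := by
    have := abs_nonneg M1
    have := abs_nonneg M2
    linarith
  set D : ℝ := 2 * (L * (A1 * (1 + A1)) * G) + A1 * Mm * G * (1 + n * (1 + 1 / c)) with hD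
  have hD0 : 0 ≤ D := by positivity
  refine ⟨n * (D * (2 + A1 * G)), by positivity, ?_⟩
  intro K U ψ w hK1 hPF
  have hK0 := hPF.K0
  obtain ⟨-, hVc, hVe, hPGs, hInt, hZ⟩ := hIGd K α U ψ w hPF
  have hPBl := hPB n c K α U ψ w hPF
  set Z : ℝ := J a U fun _ => 1 with hZdef
  let y : Fin n → E k → ℝ := fun l x => inner ℝ (a l) x
  let g : E k → ℝ := fun x => 1 + ‖x‖ ^ 2
  let w0 : Fin n → ℝ := fun l => w l 0
  have hw0 : ∀ l, c ≤ w0 l := fun l => hPF.lo l 0
  have hw0p : ∀ l, 0 < w0 l := fun l => lt_of_lt_of_le hc (hw0 l)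
  have hg1 : ∀ x, 1 ≤ g x := fun x => by
    have := sq_nonneg ‖x‖
    simp only [g]
    linarith
  have hgx : ∀ x, ‖x‖ ≤ g x := fun x => by
    simp only [g]
    nlinarith [sq_nonneg (‖x‖ - 1)]
  have hgg : ∀ x, g x ≤ g x ^ 2 := fun x => by nlinarith [hg1 x]
  -- polynomial growth
  have hPGg : PG g := PG_add (PG_const 1) (PG_pow PG_norm 2)
  have hPGg2 : PG (fun x => g x ^ 2) := PG_pow hPGg 2
  have hPGψ : ∀ l, PG fun x => ψ l (y l x) := fun l => (hPGs l).1
  have hPGw : ∀ l, PG fun x => w l (y l x) := fun l => (hPGs l).2.1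
  have hPGy : ∀ l, PG (y l) := fun l => PG_inner (a l)
  have hPGm : ∀ l, PG fun x : E k => (inner ℝ (m l) x : ℝ) := fun l => PG_inner (m l)
  -- moments
  have hJg2 : J a U (fun x => g x ^ 2) ≤ G * Z := by
    have e1 : (fun x : E k => g x ^ 2) = fun x => (1 + 2 * ‖x‖ ^ (2 * 1)) + ‖x‖ ^ (2 * 2) := by
      funext x
      simp only [g]
      ring
    have i1 : Integrable fun x : E k => (1 : ℝ) * Real.exp (-(VV a U x)) := hInt _ (PG_const 1)
    have i2 : Integrable fun x : E k => (2 * ‖x‖ ^ (2 * 1)) * Real.exp (-(VV a U x)) :=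
      hInt _ (PG_const_mul 2 (PG_pow PG_norm _))
    have i3 : Integrable fun x : E k => (‖x‖ ^ (2 * 2)) * Real.exp (-(VV a U x)) :=
      hInt _ (PG_pow PG_norm _)
    have i4 : Integrable fun x : E k => (1 + 2 * ‖x‖ ^ (2 * 1)) * Real.exp (-(VV a U x)) :=
      hInt _ (PG_add (PG_const 1) (PG_const_mul 2 (PG_pow PG_norm _)))
    rw [e1, J_add i4 i3, J_add i1 i2, J_cmul]
    have h1 := hM1 K α U ψ w hPF
    have h2 := hM2 K α U ψ w hPF
    have h3 : M1 * Z ≤ |M1| * Z := mul_le_mul_of_nonneg_right (le_abs_self _) hZ.le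
    have h4 : M2 * Z ≤ |M2| * Z := mul_le_mul_of_nonneg_right (le_abs_self _) hZ.le
    rw [hG]
    nlinarith
  have hJg : J a U g ≤ G * Z := (J_mono (hInt _ hPGg) (hInt _ hPGg2) hgg).trans hJg2
  -- pointwise bounds
  have hyb : ∀ l x, |y l x| ≤ A * ‖x‖ := fun l x =>
    (abs_real_inner_le_norm _ _).trans (mul_le_mul_of_nonneg_right (hAl l) (norm_nonneg _))
  have hysq : ∀ l x, 1 + |y l x| ^ 2 ≤ A1 * g x := by
    intro l x
    have h1 : |y l x| ^ 2 ≤ (A * ‖x‖) ^ 2 := pow_le_pow_left₀ (abs_nonneg _) (hyb l x) 2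
    have h2 := sq_nonneg A
    have h3 := sq_nonneg ‖x‖
    simp only [g, hA1]
    nlinarith
  have hψb : ∀ l x, |ψ l (y l x) - w0 l * y l x| ≤ K * (A1 * g x) := by
    intro l x
    have h1 := (hPBl l).2.2.2.2.2.2.1 (y l x)
    refine h1.trans (mul_le_mul_of_nonneg_left ?_ hK0)
    exact (rpow_le_sq (abs_nonneg _) (by linarith) (by linarith)).trans (hysq l x)
  have hwb : ∀ l x, |w l (y l x) - w0 l| ≤ K * (A1 * g x) := by
    intro l x
    have h1 := (hPBl l).2.2.2.2.2.2.2.1 (y l x)
    refine h1.trans (mul_le_mul_of_nonneg_left ?_ hK0)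
    exact (rpow_le_sq (abs_nonneg _) hα0.le (by linarith)).trans (hysq l x)
  -- `φ`
  have hφb : ∀ l x, |φ l (w l (y l x)) - φ l (w0 l)| ≤
      K * (L * (A1 * (1 + A1))) * (1 + 2 * w0 l) * g x ^ 2 := by
    intro l x
    have h1 := hFH.2 l (w l (y l x)) (w0 l) (hPF.lo l _) (hw0 l)
    have h2 := hwb l x
    have h3 := hg1 x
    have h4 := hw0p l
    have hKA : K * (A1 * g x) ≤ A1 * g x := by
      have : 0 ≤ A1 * g x := by positivity
      nlinarith
    have h5 : w l (y l x) ≤ w0 l + A1 * g x := by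
      have := (abs_le.mp h2).2
      linarith
    have h6 : 1 + w l (y l x) + w0 l ≤ (1 + 2 * w0 l) * ((1 + A1) * g x) := by
      have h7 : (1 + 2 * w0 l) * 1 ≤ (1 + 2 * w0 l) * g x :=
        mul_le_mul_of_nonneg_left h3 (by positivity)
      have h8 : 1 * (A1 * g x) ≤ (1 + 2 * w0 l) * (A1 * g x) :=
        mul_le_mul_of_nonneg_right (by linarith) (by positivity)
      nlinarith
    have h9 : 0 ≤ 1 + w l (y l x) + w0 l := by
      have := hPF.lo l (y l x)
      linarith
    calc |φ l (w l (y l x)) - φ l (w0 l)|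
        ≤ L * (1 + w l (y l x) + w0 l) * |w l (y l x) - w0 l| := h1
      _ ≤ L * ((1 + 2 * w0 l) * ((1 + A1) * g x)) * (K * (A1 * g x)) := by
          refine mul_le_mul (mul_le_mul_of_nonneg_left h6 hL) h2 (abs_nonneg _) ?_
          positivity
      _ = K * (L * (A1 * (1 + A1))) * (1 + 2 * w0 l) * g x ^ 2 := by ring
  have hφc : ∀ l, Continuous fun x => φ l (w l (y l x)) := by
    intro l
    have h1 : ContinuousOn (φ l) (Set.Ioi 0) := (hFH.1 l).continuousOn isOpen_Ioi
    have h2 : Continuous fun x : E k => w l (y l x) := (hPGw l).1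
    refine h1.comp_continuous h2 fun x => ?_
    exact lt_of_lt_of_le hc (hPF.lo l _)
  have hPGφ : ∀ l, PG fun x => φ l (w l (y l x)) := by
    intro l
    refine PG_of_le (G := fun x => |φ l (w0 l)| +
      K * (L * (A1 * (1 + A1))) * (1 + 2 * w0 l) * g x ^ 2) (hφc l)
      (PG_add (PG_const _) (PG_const_mul _ hPGg2)) fun x => ?_
    have h1 := hφb l x
    have h2 : |φ l (w l (y l x))| ≤ |φ l (w l (y l x)) - φ l (w0 l)| + |φ l (w0 l)| := by
      have := abs_add_le (φ l (w l (y l x)) - φ l (w0 l)) (φ l (w0 l))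
      rw [sub_add_cancel] at this
      exact this
    linarith
  have key1 : ∀ l, J a U (fun x => φ l (w l (y l x))) ≤ φ l (w0 l) * Z +
      K * (2 * (L * (A1 * (1 + A1)) * G)) * ((1 + w0 l) * Z) := by
    intro l
    have h1 : J a U (fun x => φ l (w l (y l x))) ≤ J a U (fun x => φ l (w0 l) +
        K * (L * (A1 * (1 + A1))) * (1 + 2 * w0 l) * g x ^ 2) := by
      refine J_mono (hInt _ (hPGφ l)) (hInt _ (PG_add (PG_const _) (PG_const_mul _ hPGg2)))
        fun x => ?_
      have := (abs_le.mp (hφb l x)).2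
      linarith
    rw [J_add (hInt _ (PG_const _)) (hInt _ (PG_const_mul _ hPGg2)), J_cmul, J_const] at h1
    have h2 : K * (L * (A1 * (1 + A1))) * (1 + 2 * w0 l) * J a U (fun x => g x ^ 2) ≤
        K * (L * (A1 * (1 + A1))) * (1 + 2 * w0 l) * (G * Z) := by
      refine mul_le_mul_of_nonneg_left hJg2 ?_
      have := hw0p l
      positivity
    have h3 : K * (L * (A1 * (1 + A1))) * (1 + 2 * w0 l) * (G * Z) ≤
        K * (2 * (L * (A1 * (1 + A1)) * G)) * ((1 + w0 l) * Z) := by
      have h4 : 0 ≤ K * (L * (A1 * (1 + A1)) * G) * Z := by positivity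
      have h5 : K * (2 * (L * (A1 * (1 + A1)) * G)) * ((1 + w0 l) * Z) -
        K * (L * (A1 * (1 + A1))) * (1 + 2 * w0 l) * (G * Z) =
        K * (L * (A1 * (1 + A1)) * G) * Z := by ring
      linarith
    linarith
  -- the Gaussian part
  obtain ⟨X, hX⟩ := exists_X a w0 hSp hw0p
  have hTX : ∀ z, Top a w0 (X z) = z := right_inv a w0 X hX
  have hmx : ∀ l x, |(inner ℝ (m l) x : ℝ)| ≤ Mm * g x := fun l x =>
    (abs_real_inner_le_norm _ _).trans (mul_le_mul (hMl l) (hgx x) (norm_nonneg _) hMm0)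
  have hrem : ∀ l j, |J a U (fun x => (ψ j (y j x) - w0 j * y j x) * inner ℝ (m l) x)| ≤
      K * (A1 * Mm * G) * Z := by
    intro l j
    have h1 : |J a U (fun x => (ψ j (y j x) - w0 j * y j x) * inner ℝ (m l) x)| ≤
        J a U (fun x => K * (A1 * Mm) * g x ^ 2) := by
      refine J_abs_le (hInt _ (PG_mul (PG_sub (hPGψ j) (PG_const_mul _ (hPGy j))) (hPGm l)))
        (hInt _ (PG_const_mul _ hPGg2)) fun x => ?_
      rw [abs_mul]
      calc |ψ j (y j x) - w0 j * y j x| * |(inner ℝ (m l) x : ℝ)|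
          ≤ (K * (A1 * g x)) * (Mm * g x) :=
            mul_le_mul (hψb j x) (hmx l x) (abs_nonneg _) (by
              have := hg1 x
              positivity)
        _ = K * (A1 * Mm) * g x ^ 2 := by ring
    rw [J_cmul] at h1
    have h2 : K * (A1 * Mm) * J a U (fun x => g x ^ 2) ≤ K * (A1 * Mm) * (G * Z) :=
      mul_le_mul_of_nonneg_left hJg2 (by positivity)
    have h3 : K * (A1 * Mm) * (G * Z) = K * (A1 * Mm * G) * Z := by ring
    linarith
  have key2 : ∀ l, w0 l * inner ℝ (X (a l)) (m l) * Z ≤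
      J a U (fun x => ψ l (y l x) * inner ℝ (m l) x) +
        K * (A1 * Mm * G * (1 + n * (1 + 1 / c))) * ((1 + w0 l) * Z) := by
    intro l
    -- integration by parts
    have e1 := hIBP n k a c K α U ψ w hSp hPF (X (a l)) (fun x => inner ℝ (m l) x)
      (fun _ => inner ℝ (m l) (X (a l))) (hPGm l) (PG_const _) (by
        intro x
        have h1 : HasFDerivAt (fun x : E k => (inner ℝ (m l) x : ℝ)) (innerSL ℝ (m l)) x :=
          (innerSL ℝ (m l)).hasFDerivAt
        exact h1.hasLineDerivAt _)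
    rw [J_const] at e1
    -- split
    have e2 : (fun x => (inner ℝ (m l) x : ℝ) * ∑ j, ψ j (inner ℝ (a j) x) *
        inner ℝ (a j) (X (a l))) = fun x =>
        (∑ j, inner ℝ (a j) (X (a l)) * ((ψ j (y j x) - w0 j * y j x) * inner ℝ (m l) x)) +
          y l x * inner ℝ (m l) x := by
      funext x
      have h1 : y l x = ∑ j, w0 j * inner ℝ (a j) (X (a l)) * inner ℝ (a j) x := by
        rw [← Top_inner, hTX]
      rw [h1, Finset.mul_sum, Finset.sum_mul, ← Finset.sum_add_distrib]
      refine Finset.sum_congr rfl fun j _ => ?_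
      simp only [y]
      ring
    have iR : ∀ j, Integrable fun x => (inner ℝ (a j) (X (a l)) *
        ((ψ j (y j x) - w0 j * y j x) * inner ℝ (m l) x)) * Real.exp (-(VV a U x)) := fun j =>
      hInt _ (PG_const_mul _ (PG_mul (PG_sub (hPGψ j) (PG_const_mul _ (hPGy j))) (hPGm l)))
    have iY : Integrable fun x => (y l x * inner ℝ (m l) x) * Real.exp (-(VV a U x)) :=
      hInt _ (PG_mul (hPGy l) (hPGm l))
    rw [e2, J_add (hInt _ (PG_sum _ fun j _ =>
      PG_const_mul _ (PG_mul (PG_sub (hPGψ j) (PG_const_mul _ (hPGy j))) (hPGm l)))) iY,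
      J_sum _ fun j _ => iR j] at e1
    -- bound for the remainder
    have e3 : |w0 l * ∑ j, J a U (fun x => inner ℝ (a j) (X (a l)) *
        ((ψ j (y j x) - w0 j * y j x) * inner ℝ (m l) x))| ≤
        n * ((1 + 1 / c) * (1 + w0 l) * (K * (A1 * Mm * G) * Z)) := by
      rw [Finset.mul_sum]
      refine (Finset.abs_sum_le_sum_abs _ _).trans ?_
      have h1 : ∀ j ∈ (Finset.univ : Finset (Fin n)),
          |w0 l * J a U (fun x => inner ℝ (a j) (X (a l)) *
          ((ψ j (y j x) - w0 j * y j x) * inner ℝ (m l) x))| ≤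
          (1 + 1 / c) * (1 + w0 l) * (K * (A1 * Mm * G) * Z) := by
        intro j _
        rw [J_cmul, ← mul_assoc, abs_mul]
        refine mul_le_mul ?_ (hrem l j) (abs_nonneg _) ?_
        · rw [abs_mul, abs_of_pos (hw0p l), real_inner_comm]
          have h2 := X_entry hBQ hw0p hX j l
          have h3 : 1 / w0 j ≤ 1 / c := one_div_le_one_div_of_le hc (hw0 j)
          have h4 : w0 l * ((1 / w0 j + 1 / w0 l) / 2) ≤ (1 + 1 / c) * (1 + w0 l) := by
            have h5 : w0 l * (1 / w0 l) = 1 := by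
              rw [mul_one_div, div_self (hw0p l).ne']
            have h6 : w0 l * (1 / w0 j) ≤ w0 l * (1 / c) :=
              mul_le_mul_of_nonneg_left h3 (hw0p l).le
            have h7 : 0 < 1 / c := by positivity
            have h8 := hw0p l
            have h9 : 0 < 1 / c * w0 l := by positivity
            nlinarith
          exact (mul_le_mul_of_nonneg_left h2 (hw0p l).le).trans h4
        · have := hw0p l
          positivity
      refine (Finset.sum_le_sum h1).trans ?_
      rw [Finset.sum_const, Finset.card_univ, Fintype.card_fin, nsmul_eq_mul]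
    -- the first remainder
    have e4 : J a U (fun x => ψ l (y l x) * inner ℝ (m l) x) =
        J a U (fun x => (ψ l (y l x) - w0 l * y l x) * inner ℝ (m l) x) +
          w0 l * J a U (fun x => y l x * inner ℝ (m l) x) := by
      rw [← J_cmul, ← J_add (hInt _ (PG_mul (PG_sub (hPGψ l) (PG_const_mul _ (hPGy l))) (hPGm l)))
        (hInt _ (PG_const_mul _ (PG_mul (hPGy l) (hPGm l))))]
      congr 1
      funext x
      ring
    have e5 := (abs_le.mp (hrem l l)).1
    have e6 := (abs_le.mp e3).2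
    have e7 : inner ℝ (X (a l)) (m l) = (inner ℝ (m l) (X (a l)) : ℝ) := real_inner_comm _ _
    rw [e4, e7]
    have e8 : w0 l * inner ℝ (m l) (X (a l)) * Z =
        w0 l * (inner ℝ (m l) (X (a l)) * J a U fun _ => 1) := by rw [hZdef]; ring
    rw [e8, ← e1, mul_add]
    have e9 : K * (A1 * Mm * G) * Z ≤ K * (A1 * Mm * G) * Z * (1 + w0 l) := by
      have h1 : 0 ≤ K * (A1 * Mm * G) * Z := by positivity
      have h2 := hw0p l
      nlinarith
    have e10 : K * (A1 * Mm * G * (1 + n * (1 + 1 / c))) * ((1 + w0 l) * Z) =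
        K * (A1 * Mm * G) * Z * (1 + w0 l) +
          n * ((1 + 1 / c) * (1 + w0 l) * (K * (A1 * Mm * G) * Z)) := by ring
    linarith
  -- the weights
  have hPGS : PG fun x => 1 + ∑ l, w l (y l x) := PG_add (PG_const 1) (PG_sum _ fun l _ => hPGw l)
  have hwpos : ∀ l x, 0 ≤ w l (y l x) := fun l x => hc.le.trans (hPF.lo l _)
  have key3 : ∀ l, (1 + w0 l) * Z ≤ (2 + A1 * G) * J a U (fun x => 1 + ∑ l, w l (y l x)) := by
    intro l
    have h1 : w0 l * Z ≤ J a U (fun x => w l (y l x)) + A1 * G * Z := by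
      have h2 : J a U (fun _ => w0 l) ≤ J a U (fun x => w l (y l x) + A1 * g x) := by
        refine J_mono (hInt _ (PG_const _)) (hInt _ (PG_add (hPGw l) (PG_const_mul _ hPGg)))
          fun x => ?_
        have h3 := (abs_le.mp (hwb l x)).1
        have h4 : K * (A1 * g x) ≤ A1 * g x := by
          have := hg1 x
          have : 0 ≤ A1 * g x := by positivity
          nlinarith
        linarith
      rw [J_const, J_add (hInt _ (hPGw l)) (hInt _ (PG_const_mul _ hPGg)), J_cmul] at h2
      have h5 : A1 * J a U g ≤ A1 * (G * Z) := mul_le_mul_of_nonneg_left hJg (by positivity)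
      linarith
    have h6 : Z ≤ J a U (fun x => 1 + ∑ l, w l (y l x)) := by
      refine J_mono (hInt _ (PG_const _)) (hInt _ hPGS) fun x => ?_
      have : 0 ≤ ∑ l, w l (y l x) := Finset.sum_nonneg fun l _ => hwpos l x
      linarith
    have h7 : J a U (fun x => w l (y l x)) ≤ J a U (fun x => 1 + ∑ l, w l (y l x)) := by
      refine J_mono (hInt _ (hPGw l)) (hInt _ hPGS) fun x => ?_
      have : w l (y l x) ≤ ∑ l, w l (y l x) :=
        Finset.single_le_sum (f := fun l => w l (y l x)) (fun l _ => hwpos l x)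
          (Finset.mem_univ l)
      linarith
    have h8 : A1 * G * Z ≤ A1 * G * J a U (fun x => 1 + ∑ l, w l (y l x)) :=
      mul_le_mul_of_nonneg_left h6 (by positivity)
    linarith
  -- conclusion
  have hGHw := hGH w0 X hw0p hX
  show J a U (fun x => ∑ l, φ l (w l (y l x))) ≤
    J a U (fun x => ∑ l, ψ l (y l x) * inner ℝ (m l) x) +
      n * (D * (2 + A1 * G)) * K * J a U fun x => 1 + ∑ l, w l (y l x)
  rw [J_sum _ fun l _ => hInt _ (hPGφ l), J_sum _ fun l _ => hInt _ (PG_mul (hPGψ l) (hPGm l))]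
  set S := J a U (fun x => 1 + ∑ l, w l (y l x)) with hS
  have f1 : ∑ l, J a U (fun x => φ l (w l (y l x))) ≤
      (∑ l, φ l (w0 l)) * Z + ∑ l, K * (2 * (L * (A1 * (1 + A1)) * G)) * ((1 + w0 l) * Z) := by
    rw [Finset.sum_mul, ← Finset.sum_add_distrib]
    exact Finset.sum_le_sum fun l _ => key1 l
  have f2 : (∑ l, w0 l * inner ℝ (X (a l)) (m l)) * Z ≤
      ∑ l, J a U (fun x => ψ l (y l x) * inner ℝ (m l) x) +
        ∑ l, K * (A1 * Mm * G * (1 + n * (1 + 1 / c))) * ((1 + w0 l) * Z) := by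
    rw [Finset.sum_mul, ← Finset.sum_add_distrib]
    exact Finset.sum_le_sum fun l _ => key2 l
  have f3 : (∑ l, φ l (w0 l)) * Z ≤ (∑ l, w0 l * inner ℝ (X (a l)) (m l)) * Z :=
    mul_le_mul_of_nonneg_right hGHw hZ.le
  have f4 : ∑ l, K * (2 * (L * (A1 * (1 + A1)) * G)) * ((1 + w0 l) * Z) +
      ∑ l, K * (A1 * Mm * G * (1 + n * (1 + 1 / c))) * ((1 + w0 l) * Z) ≤
      n * (D * (2 + A1 * G)) * K * S := by
    rw [← Finset.sum_add_distrib]
    have h1 : ∀ l ∈ (Finset.univ : Finset (Fin n)),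
        K * (2 * (L * (A1 * (1 + A1)) * G)) * ((1 + w0 l) * Z) +
        K * (A1 * Mm * G * (1 + n * (1 + 1 / c))) * ((1 + w0 l) * Z) ≤
        D * (2 + A1 * G) * K * S := by
      intro l _
      have h2 : K * (2 * (L * (A1 * (1 + A1)) * G)) * ((1 + w0 l) * Z) +
        K * (A1 * Mm * G * (1 + n * (1 + 1 / c))) * ((1 + w0 l) * Z) =
        K * D * ((1 + w0 l) * Z) := by rw [hD]; ring
      rw [h2]
      have h3 := mul_le_mul_of_nonneg_left (key3 l) (by positivity : 0 ≤ K * D)
      linarith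
    refine (Finset.sum_le_sum h1).trans ?_
    rw [Finset.sum_const, Finset.card_univ, Fintype.card_fin, nsmul_eq_mul]
    apply le_of_eq
    ring
  linarith

end Pool.Agent.Helper78.DF
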