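import Pool.Agent.Helper67.DF.Stmts

/-!
Project DF (MP_10bc19_gt): the rotation principle (RPI).
-/

open Finset MeasureTheory Filter Topology

namespace Pool.Agent.Helper78.DF

open Pool.Agent.Helper67.BT (E PG Sp)
open Pool.Agent.Helper67.DF

/-- the induction -/
theorem rpi_ind (hS : ST_STEP) (hR : ST_CLR) (n k : ℕ) (a m : Fin n → E k)
    (φ : Fin n → ℝ → ℝ) (c L α C : ℝ) (ha : Sp a) (hf : FH c L φ)
    (hC : ∀ (K : ℝ) (U ψ w : Fin n → ℝ → ℝ), K ≤ 1 → PF c K α U ψ w →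
      J a U (fun x => ∑ l, φ l (w l (inner ℝ (a l) x))) ≤
        J a U (fun x => ∑ l, ψ l (inner ℝ (a l) x) * inner ℝ (m l) x) +
        C * K * J a U fun x => 1 + ∑ l, w l (inner ℝ (a l) x)) (j : ℕ) :
    ∀ (K : ℝ) (U ψ w : Fin n → ℝ → ℝ), K ≤ ((2 : ℝ) ^ (α / 2)) ^ j → PF c K α U ψ w →
      J a U (fun x => ∑ l, φ l (w l (inner ℝ (a l) x))) ≤
        J a U (fun x => ∑ l, ψ l (inner ℝ (a l) x) * inner ℝ (m l) x) +
        C * (K / ((2 : ℝ) ^ (α / 2)) ^ j) * J a U fun x => 1 + ∑ l, w l (inner ℝ (a l) x) := by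
  have h2 : (0 : ℝ) < (2 : ℝ) ^ (α / 2) := Real.rpow_pos_of_pos (by norm_num) _
  induction j with
  | zero =>
    intro K U ψ w hK hP
    have h := hC K U ψ w (by simpa using hK) hP
    simpa using h
  | succ j ih =>
    intro K U ψ w hK hP
    refine hS n k a m φ c L α K _ U ψ w ha hf hP fun z => ?_
    have hP' := hR n c K α U ψ w (bb a z) hP
    have hK' : K / (2 : ℝ) ^ (α / 2) ≤ ((2 : ℝ) ^ (α / 2)) ^ j := by
      rw [div_le_iff₀ h2, ← pow_succ]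
      exact hK
    have h := ih _ _ _ _ hK' hP'
    have e : K / (2 : ℝ) ^ (α / 2) / ((2 : ℝ) ^ (α / 2)) ^ j =
        K / ((2 : ℝ) ^ (α / 2)) ^ (j + 1) := by
      rw [div_div, ← pow_succ']
    rw [e] at h
    exact h

/-- the rotation principle -/
theorem st_RPI (hLf : ST_LEAF) (hS : ST_STEP) (hR : ST_CLR) : ST_RPI := by
  intro n k a m φ c L α K U ψ w ha hL hG hf hP
  obtain ⟨C, hC0, hC⟩ := hLf n k a m φ c L α ha hP.c0 hL hP.a0 hP.a1 hG hf
  have h2 : (1 : ℝ) < (2 : ℝ) ^ (α / 2) :=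
    Real.one_lt_rpow (by norm_num) (by have := hP.a0; positivity)
  have ht : Tendsto (fun j : ℕ => ((2 : ℝ) ^ (α / 2)) ^ j) atTop atTop :=
    tendsto_pow_atTop_atTop_of_one_lt h2
  have hev : ∀ᶠ j : ℕ in atTop, K ≤ ((2 : ℝ) ^ (α / 2)) ^ j := ht.eventually_ge_atTop K
  have hlim : Tendsto (fun j : ℕ =>
      J a U (fun x => ∑ l, ψ l (inner ℝ (a l) x) * inner ℝ (m l) x) +
        C * (K / ((2 : ℝ) ^ (α / 2)) ^ j) * J a U fun x => 1 + ∑ l, w l (inner ℝ (a l) x)) atTop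
      (𝓝 (J a U (fun x => ∑ l, ψ l (inner ℝ (a l) x) * inner ℝ (m l) x) +
        C * 0 * J a U fun x => 1 + ∑ l, w l (inner ℝ (a l) x))) := by
    have h0 : Tendsto (fun j : ℕ => K / ((2 : ℝ) ^ (α / 2)) ^ j) atTop (𝓝 0) :=
      ht.const_div_atTop K
    exact ((h0.const_mul C).mul_const _).const_add _
  rw [mul_zero, zero_mul, add_zero] at hlim
  refine ge_of_tendsto hlim ?_
  filter_upwards [hev] with j hj
  exact rpi_ind hS hR n k a m φ c L α C ha hf (fun K U ψ w hK hP => hC K U ψ w hK hP) j K U ψ w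
    hj hP

end Pool.Agent.Helper78.DF
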